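import Pool.Agent.Run7.h26.QT.Stm
import Pool.Agent.Run7.h424.QT.Bad

/-!
# Project QT, piece (D)
-/

set_option autoImplicit false

open scoped Classical

namespace Run7.h424.QT

open Pool.Agent.Y703.CX (S_SIE)
open Run7.h26.QT (S_BAD6)

/-- **(D)** few sets have degenerate labels -/
theorem t_BAD6 (hS : S_SIE) : S_BAD6 := fun E hE => small6 hS ∅ ∅ E hE

end Run7.h424.QT
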